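import Mathlib

namespace Pool.Agent.Results.MP_42cd19_co.LinearBound

/-- A non-nested matching of the ordered graph on `V`, left ends `< p`, edges in the relation `R`
(internal form used in the proof). -/
structure Mat (R : ℕ → ℕ → Prop) (V : Finset ℕ) (p : ℕ) (S : Finset (ℕ × ℕ)) : Prop where
  mem1 : ∀ e ∈ S, e.1 ∈ V
  mem2 : ∀ e ∈ S, e.2 ∈ V
  lt : ∀ e ∈ S, e.1 < e.2
  ltp : ∀ e ∈ S, e.1 < p
  rel : ∀ e ∈ S, R e.1 e.2
  nn : ∀ e ∈ S, ∀ f ∈ S, e ≠ f → (e.1 < f.1 ∧ e.2 < f.2) ∨ (f.1 < e.1 ∧ f.2 < e.2)
  dj : ∀ e ∈ S, ∀ f ∈ S, e.1 ≠ f.2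

lemma Mat.empty (R : ℕ → ℕ → Prop) (V : Finset ℕ) (p : ℕ) : Mat R V p ∅ := by
  constructor <;> simp

lemma Mat.mono {R : ℕ → ℕ → Prop} {V W : Finset ℕ} {p q : ℕ} {S : Finset (ℕ × ℕ)}
    (h : Mat R V p S) (hVW : V ⊆ W) (hpq : p ≤ q) : Mat R W q S where
  mem1 e he := hVW (h.mem1 e he)
  mem2 e he := hVW (h.mem2 e he)
  lt := h.lt
  ltp e he := lt_of_lt_of_le (h.ltp e he) hpq
  rel := h.rel
  nn := h.nn
  dj := h.dj

lemma Mat.subset {R : ℕ → ℕ → Prop} {V : Finset ℕ} {p : ℕ} {S T : Finset (ℕ × ℕ)}
    (h : Mat R V p S) (hT : T ⊆ S) : Mat R V p T where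
  mem1 e he := h.mem1 e (hT he)
  mem2 e he := h.mem2 e (hT he)
  lt e he := h.lt e (hT he)
  ltp e he := h.ltp e (hT he)
  rel e he := h.rel e (hT he)
  nn e he f hf := h.nn e (hT he) f (hT hf)
  dj e he f hf := h.dj e (hT he) f (hT hf)

/-- Union of two matchings, the first one before the second one. -/
lemma Mat.union {R : ℕ → ℕ → Prop} {V : Finset ℕ} {p : ℕ} {S T : Finset (ℕ × ℕ)}
    (hS : Mat R V p S) (hT : Mat R V p T)
    (h1 : ∀ e ∈ S, ∀ f ∈ T, e.1 < f.1) (h2 : ∀ e ∈ S, ∀ f ∈ T, e.2 < f.2)
    (h3 : ∀ e ∈ S, ∀ f ∈ T, e.2 ≠ f.1) : Mat R V p (S ∪ T) where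
  mem1 e he := by
    rcases Finset.mem_union.1 he with h | h
    · exact hS.mem1 e h
    · exact hT.mem1 e h
  mem2 e he := by
    rcases Finset.mem_union.1 he with h | h
    · exact hS.mem2 e h
    · exact hT.mem2 e h
  lt e he := by
    rcases Finset.mem_union.1 he with h | h
    · exact hS.lt e h
    · exact hT.lt e h
  ltp e he := by
    rcases Finset.mem_union.1 he with h | h
    · exact hS.ltp e h
    · exact hT.ltp e h
  rel e he := by
    rcases Finset.mem_union.1 he with h | h
    · exact hS.rel e h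
    · exact hT.rel e h
  nn e he f hf hne := by
    rcases Finset.mem_union.1 he with h | h <;> rcases Finset.mem_union.1 hf with h' | h'
    · exact hS.nn e h f h' hne
    · exact Or.inl ⟨h1 e h f h', h2 e h f h'⟩
    · exact Or.inr ⟨h1 f h' e h, h2 f h' e h⟩
    · exact hT.nn e h f h' hne
  dj e he f hf := by
    rcases Finset.mem_union.1 he with h | h <;> rcases Finset.mem_union.1 hf with h' | h'
    · exact hS.dj e h f h'
    · have := h1 e h f h'
      have := hT.lt f h'
      omega
    · exact fun hh => h3 f h' e h hh.symm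
    · exact hT.dj e h f h'

lemma Mat.single {R : ℕ → ℕ → Prop} {V : Finset ℕ} {p a b : ℕ} (ha : a ∈ V) (hb : b ∈ V)
    (hab : a < b) (hap : a < p) (hR : R a b) : Mat R V p {(a, b)} where
  mem1 e he := by rw [Finset.mem_singleton.1 he]; exact ha
  mem2 e he := by rw [Finset.mem_singleton.1 he]; exact hb
  lt e he := by rw [Finset.mem_singleton.1 he]; exact hab
  ltp e he := by rw [Finset.mem_singleton.1 he]; exact hap
  rel e he := by rw [Finset.mem_singleton.1 he]; exact hR
  nn e he f hf hne := by
    rw [Finset.mem_singleton.1 he, Finset.mem_singleton.1 hf] at hne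
    exact absurd rfl hne
  dj e he f hf := by
    rw [Finset.mem_singleton.1 he, Finset.mem_singleton.1 hf]
    exact ne_of_lt hab

/-- Add a last edge. -/
lemma Mat.insert_last {R : ℕ → ℕ → Prop} {V W : Finset ℕ} {p q a b : ℕ} {S : Finset (ℕ × ℕ)}
    (h : Mat R W q S) (hWV : W ⊆ V) (hq : q ≤ a) (hap : a < p) (ha : a ∈ V) (hb : b ∈ V)
    (hab : a < b) (hR : R a b) (hWb : ∀ x ∈ W, x < b) (hna : ∀ e ∈ S, e.2 ≠ a) :
    Mat R V p (S ∪ {(a, b)}) ∧ (S ∪ {(a, b)}).card = S.card + 1 := by
  refine ⟨(h.mono hWV (by omega)).union (Mat.single ha hb hab hap hR) ?_ ?_ ?_, ?_⟩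
  · intro e he f hf
    rw [Finset.mem_singleton.1 hf]
    exact lt_of_lt_of_le (h.ltp e he) hq
  · intro e he f hf
    rw [Finset.mem_singleton.1 hf]
    exact hWb _ (h.mem2 e he)
  · intro e he f hf
    rw [Finset.mem_singleton.1 hf]
    exact hna e he
  · rw [Finset.card_union_of_disjoint, Finset.card_singleton]
    rw [Finset.disjoint_singleton_right]
    intro hmem
    have := h.ltp _ hmem
    simp only at this
    omega

/-- The rows (elements `< p`) that `S` leaves uncovered. -/
def unc (V : Finset ℕ) (p : ℕ) (S : Finset (ℕ × ℕ)) : Finset ℕ :=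
  V.filter (fun x => x < p ∧ ∀ e ∈ S, e.1 ≠ x ∧ e.2 ≠ x)

/-- Key lemma: if no `R`-matching with left ends `< p` has more than `F` edges and there are more
than `F` vertices `≥ p`, then some matching of the complementary colour with left ends `< p`
leaves at most `F` vertices `< p` uncovered. -/
theorem key (R : ℕ → ℕ → Prop) : ∀ (k : ℕ) (V : Finset ℕ) (p F : ℕ),
    (V.filter (· < p)).card = k →
    (∀ S, Mat R V p S → S.card ≤ F) → F + 1 ≤ (V.filter (p ≤ ·)).card →
    ∃ S, Mat (fun a b => ¬ R a b) V p S ∧ (unc V p S).card ≤ F := by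
  intro k
  induction k with
  | zero =>
    intro V p F hk _ _
    refine ⟨∅, Mat.empty _ _ _, ?_⟩
    have : unc V p ∅ ⊆ V.filter (· < p) := by
      intro x hx
      simp only [unc, Finset.mem_filter] at hx ⊢
      exact ⟨hx.1, hx.2.1⟩
    have := Finset.card_le_card this
    omega
  | succ k ih =>
    intro V p F hk hF hn
    -- last row and last column
    have hne : (V.filter (· < p)).Nonempty := by
      rw [← Finset.card_pos]; omega
    obtain ⟨r, hr, hrmax⟩ := Finset.exists_max_image _ id hne
    simp only [Finset.mem_filter, id] at hr hrmax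
    have hne2 : (V.filter (p ≤ ·)).Nonempty := by
      rw [← Finset.card_pos]; omega
    obtain ⟨v, hv, hvmax⟩ := Finset.exists_max_image _ id hne2
    simp only [Finset.mem_filter, id] at hv hvmax
    obtain ⟨hrV, hrp⟩ := hr
    obtain ⟨hvV, hvp⟩ := hv
    have hrv : r < v := by omega
    have hmaxV : ∀ x ∈ V, x ≤ v := by
      intro x hx
      by_cases h : p ≤ x
      · exact hvmax x ⟨hx, h⟩
      · omega
    by_cases hc : R r v
    · -- structure without `v` and `r`
      set W := (V.erase v).erase r with hW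
      have hWV : W ⊆ V := (Finset.erase_subset _ _).trans (Finset.erase_subset _ _)
      have hrows : (W.filter (· < r)) = (V.filter (· < p)).erase r := by
        ext x
        simp only [hW, Finset.mem_filter, Finset.mem_erase]
        constructor
        · rintro ⟨⟨h1, h2, h3⟩, h4⟩
          exact ⟨h1, h3, by omega⟩
        · rintro ⟨h1, h2, h3⟩
          have := hrmax x ⟨h2, h3⟩
          refine ⟨⟨h1, by omega, h2⟩, by omega⟩
      have hk' : (W.filter (· < r)).card = k := by
        rw [hrows, Finset.card_erase_of_mem (by simp [hrV, hrp])]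
        omega
      have hcols : (W.filter (r ≤ ·)) = (V.filter (p ≤ ·)).erase v := by
        ext x
        simp only [hW, Finset.mem_filter, Finset.mem_erase]
        constructor
        · rintro ⟨⟨h1, h2, h3⟩, h4⟩
          refine ⟨h2, h3, ?_⟩
          by_contra h5
          have := hrmax x ⟨h3, by omega⟩
          omega
        · rintro ⟨h1, h2, h3⟩
          exact ⟨⟨by omega, h1, h2⟩, by omega⟩
      have hn' : (W.filter (r ≤ ·)).card + 1 = (V.filter (p ≤ ·)).card := by
        rw [hcols, Finset.card_erase_of_mem (by simp [hvV, hvp])]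
        omega
      have hWv : ∀ x ∈ W, x < v := by
        intro x hx
        simp only [hW, Finset.mem_erase] at hx
        have := hmaxV x hx.2.2
        omega
      have hF' : ∀ S, Mat R W r S → S.card + 1 ≤ F := by
        intro S hS
        obtain ⟨h1, h2⟩ := hS.insert_last (V := V) (p := p) (a := r) (b := v) hWV le_rfl hrp hrV
          hvV hrv hc hWv (fun e he h => by
            have := hS.mem2 e he
            rw [h] at this
            simp [hW] at this)
        have := hF _ h1
        omega
      have hF1 : 1 ≤ F := by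
        have := hF' ∅ (Mat.empty _ _ _)
        simpa using this
      obtain ⟨S, hS, hSu⟩ := ih W r (F - 1) hk' (fun S hS => by have := hF' S hS; omega) (by omega)
      refine ⟨S, hS.mono hWV hrp.le, ?_⟩
      have hsub : unc V p S ⊆ insert r (unc W r S) := by
        intro x hx
        simp only [unc, Finset.mem_filter] at hx
        rw [Finset.mem_insert]
        by_cases hxr : x = r
        · exact Or.inl hxr
        · right
          have := hrmax x ⟨hx.1, hx.2.1⟩
          simp only [unc, Finset.mem_filter, hW, Finset.mem_erase]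
          exact ⟨⟨hxr, by omega, hx.1⟩, by omega, hx.2.2⟩
      have := (Finset.card_le_card hsub).trans (Finset.card_insert_le _ _)
      omega
    · -- structure without `v`, with `r` as a column
      set W := V.erase v with hW
      have hWV : W ⊆ V := Finset.erase_subset _ _
      have hrows : (W.filter (· < r)) = (V.filter (· < p)).erase r := by
        ext x
        simp only [hW, Finset.mem_filter, Finset.mem_erase]
        constructor
        · rintro ⟨⟨h1, h2⟩, h4⟩
          exact ⟨by omega, h2, by omega⟩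
        · rintro ⟨h1, h2, h3⟩
          have := hrmax x ⟨h2, h3⟩
          refine ⟨⟨by omega, h2⟩, by omega⟩
      have hk' : (W.filter (· < r)).card = k := by
        rw [hrows, Finset.card_erase_of_mem (by simp [hrV, hrp])]
        omega
      have hcols : (W.filter (r ≤ ·)) = insert r ((V.filter (p ≤ ·)).erase v) := by
        ext x
        simp only [hW, Finset.mem_filter, Finset.mem_erase, Finset.mem_insert]
        constructor
        · rintro ⟨⟨h1, h2⟩, h4⟩
          by_cases h5 : x = r
          · exact Or.inl h5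
          · right
            refine ⟨h1, h2, ?_⟩
            by_contra h6
            have := hrmax x ⟨h2, by omega⟩
            omega
        · rintro (h | ⟨h1, h2, h3⟩)
          · subst h
            exact ⟨⟨by omega, hrV⟩, le_rfl⟩
          · exact ⟨⟨h1, h2⟩, by omega⟩
      have hn' : (W.filter (r ≤ ·)).card = (V.filter (p ≤ ·)).card := by
        rw [hcols, Finset.card_insert_of_notMem, Finset.card_erase_of_mem (by simp [hvV, hvp])]
        · omega
        · simp only [Finset.mem_erase, Finset.mem_filter, not_and]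
          intro _ _
          omega
      obtain ⟨S, hS, hSu⟩ := ih W r F hk' (fun S hS => hF S (hS.mono hWV hrp.le)) (by omega)
      by_cases hcov : ∃ e ∈ S, e.2 = r
      · refine ⟨S, hS.mono hWV hrp.le, ?_⟩
        have hsub : unc V p S ⊆ unc W r S := by
          intro x hx
          simp only [unc, Finset.mem_filter] at hx
          have h1 := hrmax x ⟨hx.1, hx.2.1⟩
          have h2 : x ≠ r := by
            rintro rfl
            obtain ⟨e, he, hee⟩ := hcov
            exact (hx.2.2 e he).2 hee
          simp only [unc, Finset.mem_filter, hW, Finset.mem_erase]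
          exact ⟨⟨by omega, hx.1⟩, by omega, hx.2.2⟩
        exact (Finset.card_le_card hsub).trans hSu
      · push Not at hcov
        obtain ⟨h1, _⟩ := hS.insert_last (V := V) (p := p) (a := r) (b := v) hWV le_rfl hrp hrV
          hvV hrv hc (fun x hx => by
            simp only [hW, Finset.mem_erase] at hx
            have := hmaxV x hx.2
            omega) hcov
        refine ⟨_, h1, ?_⟩
        have hsub : unc V p (S ∪ {(r, v)}) ⊆ unc W r S := by
          intro x hx
          simp only [unc, Finset.mem_filter, Finset.mem_union, Finset.mem_singleton] at hx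
          have h1 := hrmax x ⟨hx.1, hx.2.1⟩
          have h2 : x ≠ r := by
            rintro rfl
            exact (hx.2.2 (x, v) (Or.inr rfl)).1 rfl
          simp only [unc, Finset.mem_filter, hW, Finset.mem_erase]
          exact ⟨⟨by omega, hx.1⟩, by omega, fun e he => hx.2.2 e (Or.inl he)⟩
        exact (Finset.card_le_card hsub).trans hSu


/-- Thresholds exist for every size of the upper part. -/
lemma exists_threshold (V : Finset ℕ) : ∀ j, j ≤ V.card → ∃ p, (V.filter (p ≤ ·)).card = j := by
  intro j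
  induction j with
  | zero =>
    intro _
    refine ⟨V.sup id + 1, ?_⟩
    rw [Finset.card_eq_zero, Finset.filter_eq_empty_iff]
    intro x hx
    have : x ≤ V.sup id := Finset.le_sup (f := id) hx
    omega
  | succ j ih =>
    intro hj
    obtain ⟨p, hp⟩ := ih (by omega)
    have hsplit : (V.filter (p ≤ ·)).card + (V.filter (fun x => ¬ p ≤ x)).card = V.card :=
      Finset.card_filter_add_card_filter_not _
    have hne : (V.filter (fun x => ¬ p ≤ x)).Nonempty := by
      rw [← Finset.card_pos]; omega
    obtain ⟨r, hr, hrmax⟩ := Finset.exists_max_image _ id hne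
    simp only [Finset.mem_filter, id, not_le] at hr hrmax
    refine ⟨r, ?_⟩
    have : V.filter (r ≤ ·) = insert r (V.filter (p ≤ ·)) := by
      ext x
      simp only [Finset.mem_filter, Finset.mem_insert]
      constructor
      · rintro ⟨h1, h2⟩
        by_cases h3 : p ≤ x
        · exact Or.inr ⟨h1, h3⟩
        · left
          have := hrmax x ⟨h1, by omega⟩
          omega
      · rintro (h | ⟨h1, h2⟩)
        · subst h
          exact ⟨hr.1, le_rfl⟩
        · exact ⟨h1, by omega⟩
    rw [this, Finset.card_insert_of_notMem, hp]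
    simp only [Finset.mem_filter, not_and]
    intro _
    omega

/-- One step of the recursion: the last `N + 1` vertices carry only small monochromatic
non-nested matchings. -/
lemma step (R : ℕ → ℕ → Prop) (V : Finset ℕ) (N p : ℕ)
    (hM : ∀ q S, Mat R V q S → S.card ≤ N)
    (hm : ∀ q S, Mat (fun a b => ¬ R a b) V q S → S.card ≤ N)
    (hp : (V.filter (p ≤ ·)).card = N + 1) (q : ℕ) (Q : Finset (ℕ × ℕ))
    (hQ : Mat (fun a b => ¬ R a b) (V.filter (p ≤ ·)) q Q) :
    Q.card + V.card ≤ 4 * N + 1 := by
  obtain ⟨P, hP, hPu⟩ := key R _ V p N rfl (fun S hS => hM p S hS) (by omega)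
  set I := P.filter (fun e => e.2 < p) with hI
  have hcover : V.filter (· < p) ⊆ unc V p P ∪ (P.image Prod.fst ∪ I.image Prod.snd) := by
    intro x hx
    simp only [Finset.mem_filter] at hx
    simp only [Finset.mem_union, Finset.mem_image, unc, Finset.mem_filter, hI]
    by_cases h1 : ∃ e ∈ P, e.1 = x
    · exact Or.inr (Or.inl h1)
    by_cases h2 : ∃ e ∈ P, e.2 = x
    · obtain ⟨e, he, hee⟩ := h2
      exact Or.inr (Or.inr ⟨e, ⟨he, by omega⟩, hee⟩)
    · left
      refine ⟨hx.1, hx.2, fun e he => ⟨fun h => h1 ⟨e, he, h⟩, fun h => h2 ⟨e, he, h⟩⟩⟩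
  have hk : (V.filter (· < p)).card ≤ (unc V p P).card + (P.card + I.card) := by
    refine (Finset.card_le_card hcover).trans ((Finset.card_union_le _ _).trans ?_)
    refine Nat.add_le_add_left ((Finset.card_union_le _ _).trans ?_) _
    exact Nat.add_le_add Finset.card_image_le Finset.card_image_le
  have hsplit : (V.filter (p ≤ ·)).card + (V.filter (fun x => ¬ p ≤ x)).card = V.card :=
    Finset.card_filter_add_card_filter_not _
  have hsame : V.filter (fun x => ¬ p ≤ x) = V.filter (· < p) := by
    ext x; simp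
  rw [hsame] at hsplit
  have hPN : P.card ≤ N := hm p P hP
  -- join the inner edges with `Q`
  have hIm : Mat (fun a b => ¬ R a b) V (max p q) I :=
    (hP.subset (Finset.filter_subset _ _)).mono (Finset.Subset.refl _) (le_max_left _ _)
  have hQm : Mat (fun a b => ¬ R a b) V (max p q) Q :=
    hQ.mono (Finset.filter_subset _ _) (le_max_right _ _)
  have hI2 : ∀ e ∈ I, e.2 < p := by
    intro e he
    exact (Finset.mem_filter.1 he).2
  have hQ1 : ∀ f ∈ Q, p ≤ f.1 := by
    intro f hf
    exact (Finset.mem_filter.1 (hQ.mem1 f hf)).2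
  have hU := hIm.union hQm
    (fun e he f hf => by
      have := hI2 e he; have := hQ1 f hf; have := hIm.lt e he; omega)
    (fun e he f hf => by
      have := hI2 e he; have := hQ1 f hf; have := hQ.lt f hf; omega)
    (fun e he f hf => by
      have := hI2 e he; have := hQ1 f hf; omega)
  have hdisj : Disjoint I Q := by
    rw [Finset.disjoint_left]
    intro e he he'
    have := hI2 e he; have := hQ1 e he'; have := hIm.lt e he; omega
  have hcard := hm _ _ hU
  rw [Finset.card_union_of_disjoint hdisj] at hcard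
  omega

/-- Recursive bound: `|V| ≤ (2 + √3) N + 1`. -/
theorem bound : ∀ (N : ℕ) (R : ℕ → ℕ → Prop) (V : Finset ℕ),
    (∀ q S, Mat R V q S → S.card ≤ N) →
    (∀ q S, Mat (fun a b => ¬ R a b) V q S → S.card ≤ N) →
    (V.card : ℝ) ≤ (2 + Real.sqrt 3) * N + 1 := by
  intro N
  induction N using Nat.strong_induction_on with
  | _ N ih =>
    intro R V hM hm
    have hs : (1 : ℝ) ≤ Real.sqrt 3 := by
      rw [Real.one_le_sqrt]; norm_num
    have hs2 : Real.sqrt 3 * Real.sqrt 3 = 3 := Real.mul_self_sqrt (by norm_num)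
    have hs3 : Real.sqrt 3 ≤ 2 := by
      rw [Real.sqrt_le_left (by norm_num)]; norm_num
    have hN0 : (0 : ℝ) ≤ N := Nat.cast_nonneg N
    by_cases hV : V.card ≤ 3 * N + 1
    · have : (V.card : ℝ) ≤ 3 * N + 1 := by exact_mod_cast hV
      nlinarith
    · obtain ⟨p, hp⟩ := exists_threshold V (N + 1) (by omega)
      have h1 := fun q Q hQ => step R V N p hM hm hp q Q hQ
      have h2 : ∀ q Q, Mat R (V.filter (p ≤ ·)) q Q → Q.card + V.card ≤ 4 * N + 1 := by
        intro q Q hQ
        refine step (fun a b => ¬ R a b) V N p hm ?_ hp q Q ?_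
        · intro q S hS
          simp only [not_not] at hS
          exact hM q S hS
        · simpa only [not_not] using hQ
      have h0 := h1 0 ∅ (Mat.empty _ _ _)
      simp only [Finset.card_empty, zero_add] at h0
      obtain ⟨N', hN'⟩ : ∃ N', N' + V.card = 4 * N + 1 := ⟨4 * N + 1 - V.card, by omega⟩
      have h3 := ih N' (by omega) R (V.filter (p ≤ ·))
        (fun q Q hQ => by have := h2 q Q hQ; omega)
        (fun q Q hQ => by have := h1 q Q hQ; omega)
      rw [hp] at h3
      push_cast at h3
      have h4 : (N' : ℝ) + V.card = 4 * N + 1 := by exact_mod_cast hN'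
      have h5 : (N : ℝ) ≤ (2 + Real.sqrt 3) * N' := by linarith
      have h6 : (2 - Real.sqrt 3) * N ≤ N' := by
        have : (2 - Real.sqrt 3) * N ≤ (2 - Real.sqrt 3) * ((2 + Real.sqrt 3) * N') :=
          mul_le_mul_of_nonneg_left h5 (by linarith)
        nlinarith
      nlinarith

/-- A non-nested matching of the ordered complete graph on `Fin m`: a set of pairwise
vertex-disjoint edges `(i, j)` with `i < j`, no one of which lies strictly inside another. -/
def IsNonNestedMatching {m : ℕ} (S : Finset (Fin m × Fin m)) : Prop :=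
  (∀ e ∈ S, e.1 < e.2) ∧
  (∀ e ∈ S, ∀ f ∈ S, e ≠ f → e.1 ≠ f.1 ∧ e.1 ≠ f.2 ∧ e.2 ≠ f.1 ∧ e.2 ≠ f.2) ∧
  (∀ e ∈ S, ∀ f ∈ S, ¬ (e.1 < f.1 ∧ f.2 < e.2))

/-- Every 2-colouring of the edges of the ordered complete graph `K_m` has a monochromatic
non-nested matching of size `n`. -/
def Arrows (m n : ℕ) : Prop :=
  ∀ col : Fin m → Fin m → Bool, ∃ (b : Bool) (S : Finset (Fin m × Fin m)),
    IsNonNestedMatching S ∧ S.card = n ∧ ∀ e ∈ S, col e.1 e.2 = b

/-- The Ramsey number `f(n)` of the problem: the least `m` with `Arrows m n`. -/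
noncomputable def nnRamsey (n : ℕ) : ℕ := sInf {m | Arrows m n}

lemma arrows_of_lt (n m : ℕ) (hn : 1 ≤ n) (hm : (2 + Real.sqrt 3) * ((n : ℝ) - 1) + 1 < m) :
    Arrows m n := by
  intro col
  by_contra hcon
  push Not at hcon
  -- the relation on ℕ
  let R : ℕ → ℕ → Prop := fun a b => ∃ (ha : a < m) (hb : b < m), col ⟨a, ha⟩ ⟨b, hb⟩ = true
  -- transfer of a large matching
  have transfer : ∀ (R' : ℕ → ℕ → Prop) (b : Bool),
      (∀ x y, ∀ (hx : x < m) (hy : y < m), R' x y → col ⟨x, hx⟩ ⟨y, hy⟩ = b) →
      ∀ q S, Mat R' (Finset.range m) q S → S.card ≤ n - 1 := by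
    intro R' b hR' q S hS
    by_contra hlt
    obtain ⟨S', hS'S, hS'c⟩ := Finset.exists_subset_card_eq (show n ≤ S.card by omega)
    have hS' := hS.subset hS'S
    let T : Finset (Fin m × Fin m) :=
      Finset.univ.filter (fun e => ((e.1 : ℕ), (e.2 : ℕ)) ∈ S')
    have hT : ∀ e : Fin m × Fin m, e ∈ T ↔ ((e.1 : ℕ), (e.2 : ℕ)) ∈ S' := by
      intro e; simp [T]
    have himg : T.image (fun e => ((e.1 : ℕ), (e.2 : ℕ))) = S' := by
      ext ⟨x, y⟩
      simp only [Finset.mem_image, Prod.mk.injEq]
      constructor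
      · rintro ⟨e, he, h1, h2⟩
        rw [← h1, ← h2]
        exact (hT e).1 he
      · intro hxy
        have hx := Finset.mem_range.1 (hS'.mem1 _ hxy)
        have hy := Finset.mem_range.1 (hS'.mem2 _ hxy)
        exact ⟨(⟨x, hx⟩, ⟨y, hy⟩), (hT _).2 hxy, rfl, rfl⟩
    have hcard : T.card = n := by
      rw [← hS'c, ← himg, Finset.card_image_of_injective]
      intro e f hef
      simp only [Prod.mk.injEq] at hef
      exact Prod.ext (Fin.ext hef.1) (Fin.ext hef.2)
    have hNN : IsNonNestedMatching T := by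
      refine ⟨?_, ?_, ?_⟩
      · intro e he
        have := hS'.lt _ ((hT e).1 he)
        exact_mod_cast this
      · intro e he f hf hne
        have hne' : ((e.1 : ℕ), (e.2 : ℕ)) ≠ ((f.1 : ℕ), (f.2 : ℕ)) := by
          intro h
          simp only [Prod.mk.injEq] at h
          exact hne (Prod.ext (Fin.ext h.1) (Fin.ext h.2))
        have h1 := hS'.nn _ ((hT e).1 he) _ ((hT f).1 hf) hne'
        have h2 := hS'.dj _ ((hT e).1 he) _ ((hT f).1 hf)
        have h3 := hS'.dj _ ((hT f).1 hf) _ ((hT e).1 he)
        simp only at h1 h2 h3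
        refine ⟨?_, ?_, ?_, ?_⟩ <;> (intro h; rw [Fin.ext_iff] at h; omega)
      · intro e he f hf hn
        by_cases hne : e = f
        · subst hne
          exact lt_irrefl _ hn.1
        have hne' : ((e.1 : ℕ), (e.2 : ℕ)) ≠ ((f.1 : ℕ), (f.2 : ℕ)) := by
          intro h
          simp only [Prod.mk.injEq] at h
          exact hne (Prod.ext (Fin.ext h.1) (Fin.ext h.2))
        have h1 := hS'.nn _ ((hT e).1 he) _ ((hT f).1 hf) hne'
        simp only at h1
        obtain ⟨h2, h3⟩ := hn
        rw [Fin.lt_def] at h2 h3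
        omega
    obtain ⟨e, he, hne⟩ := hcon b T hNN hcard
    exact hne (hR' _ _ e.1.2 e.2.2 (hS'.rel _ ((hT e).1 he)))
  have hA := transfer R true (fun x y hx hy h => by
    obtain ⟨_, _, h⟩ := h
    exact h)
  have hB := transfer (fun a b => ¬ R a b) false (fun x y hx hy h => by
    by_contra h'
    apply h
    refine ⟨hx, hy, ?_⟩
    simpa using h')
  have := bound (n - 1) R (Finset.range m) hA hB
  rw [Finset.card_range, Nat.cast_sub hn] at this
  push_cast at this
  linarith

/-- **Unconditional linear upper bound** for the Ramsey numbers of monochromatic non-nested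
matchings: every 2-colouring of the edges of the ordered `K_m` with `m > (2 + √3)(n - 1) + 1` has
a monochromatic non-nested matching with `n` edges; in particular `f(n) ≤ (2 + √3)(n - 1) + 2`. -/
theorem result (n : ℕ) (hn : 1 ≤ n) :
    (∀ m : ℕ, (2 + Real.sqrt 3) * ((n : ℝ) - 1) + 1 < m → Arrows m n) ∧
    (nnRamsey n : ℝ) ≤ (2 + Real.sqrt 3) * ((n : ℝ) - 1) + 2 := by
  refine ⟨fun m hm => arrows_of_lt n m hn hm, ?_⟩
  set x : ℝ := (2 + Real.sqrt 3) * ((n : ℝ) - 1) + 1 with hx
  have hx0 : 0 ≤ x := by
    have h1 : (1 : ℝ) ≤ n := by exact_mod_cast hn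
    have h2 : 0 ≤ Real.sqrt 3 := Real.sqrt_nonneg 3
    nlinarith
  have hmem : (⌊x⌋₊ + 1) ∈ {m | Arrows m n} := by
    apply arrows_of_lt n _ hn
    rw [← hx]
    push_cast
    exact Nat.lt_floor_add_one x
  have h1 : nnRamsey n ≤ ⌊x⌋₊ + 1 := Nat.sInf_le hmem
  have h2 : ((⌊x⌋₊ : ℕ) : ℝ) ≤ x := Nat.floor_le hx0
  have h3 : (nnRamsey n : ℝ) ≤ (⌊x⌋₊ : ℝ) + 1 := by exact_mod_cast h1
  linarith

end Pool.Agent.Results.MP_42cd19_co.LinearBound
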